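import Pool.Agent.X121.GN.Gen
import Pool.Agent.X328.GN.Stm3

/-!
# Project AL: maps near `X ^ d` are rigid
-/

set_option autoImplicit false

namespace Pool.Agent.X328.AL

open Finset Polynomial
open Pool.Agent.X328.GN Pool.Agent.X121.GN
open Pool.Agent.X328.FP (vl)
open Pool.Agent.X263.AL (Per mu mults Rigid Exceptional)

universe u v

/-- **GEN**: generic maps are rigid: there is `D ≠ 0` such that all maps with `D (κ) ≠ 0` are rigid. -/
theorem t_GEN2 (hSPEC : S_SPEC2.{u}) (hCHI : S_CHI.{u, v}) (hIT : S_IT.{u}) :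
    ∀ d : ℕ, 2 ≤ d → ∃ D : MvPolynomial (Ix d) ℚ, MvPolynomial.aeval (fun _ => (0 : ℚ)) D ≠ 0 ∧
      ∀ (K : Type u) [Field K] [CharZero K] [IsAlgClosed K] (κ : Ix d → K),
        IsCoprime (nu d κ) (de d κ) → MvPolynomial.aeval κ D ≠ 0 → Rigid d κ := by
  intro d hd
  obtain ⟨D, FS, hD, h⟩ := hSPEC d hd
  refine ⟨D, hD, fun K _ _ _ κ hco hκ => ?_⟩
  obtain ⟨h1, h2, ⟨M, G⟩, -, h3⟩ := h K κ hκ
  have hdeg : (Ph d κ).natDegree = d ^ 3 := by
    obtain ⟨-, -, g2, g3, -⟩ := hIT K d hd (nu d κ) (de d κ) hco (nu_monic d hd κ).1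
      (nu_monic d hd κ).2 (de_deg d hd κ) 3
    have g2' : (P3 d κ).natDegree = d ^ 3 := g2
    have g3' : (Q3 d κ).natDegree < d ^ 3 := g3
    refine le_antisymm ?_ (le_natDegree_of_ne_zero h2)
    refine (natDegree_sub_le _ _).trans (max_le g2'.le ?_)
    refine natDegree_mul_le.trans ?_
    rw [natDegree_X]
    omega
  obtain ⟨c, hc, hprod⟩ := hCHI.2 K d hd κ hco hdeg (IsAlgClosed.splits _)
  intro i
  obtain ⟨⟨m0, hm0, hne⟩, hsum⟩ := h3 i
  set F := IntermediateField.adjoin ℚ (mults d κ) with hF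
  have hml : ∀ x ∈ (Ph d κ).roots, ml d κ x ∈ F := fun x hx =>
    IntermediateField.subset_adjoin _ _ (ml_mem d hIT hd κ hco x (isRoot_of_mem_roots hx))
  have hcf : ∀ j, (chi d κ).coeff j / (chi d κ).coeff (d ^ 3) ∈ F := by
    intro j
    rw [hprod, coeff_C_mul, coeff_C_mul, mul_div_mul_left _ _ hc]
    exact div_mem (prod_coeff_mem F _ _ hml _) (prod_coeff_mem F _ _ hml _)
  let y : Fin (d ^ 3 + 1) → F := fun j => ⟨_, hcf j⟩
  have hG : ∀ m, MvPolynomial.aeval (fun j : Fin (d ^ 3 + 1) =>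
      (chi d κ).coeff j / (chi d κ).coeff (d ^ 3)) (G i m) =
        algebraMap F K (MvPolynomial.aeval y (G i m)) := by
    intro m
    rw [← MvPolynomial.aeval_algebraMap_apply]
    rfl
  refine ⟨∑ m ∈ range (M + 1), C (MvPolynomial.aeval y (G i m)) * X ^ m, ?_, ?_⟩
  · intro h0
    apply hne
    have h4 := congrArg (fun p : F[X] => p.coeff m0) h0
    simp only [finsetSum_coeff, coeff_C_mul, coeff_X_pow, coeff_zero, mul_ite, mul_one,
      mul_zero] at h4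
    rw [Finset.sum_ite_eq, if_pos (Finset.mem_range.2 (by omega))] at h4
    rw [hG, h4, map_zero]
  · rw [map_sum, ← hsum]
    refine Finset.sum_congr rfl fun m _ => ?_
    rw [map_mul, map_pow, aeval_C, aeval_X, hG]

/-- there is `D ≠ 0` which vanishes at all exceptional parameters -/
theorem t_EXC2 (hSPEC : S_SPEC2.{0}) (hCHI : S_CHI.{0, v}) (hIT : S_IT.{0}) :
    ∀ d : ℕ, 2 ≤ d → ∃ D : MvPolynomial (Ix d) ℚ, MvPolynomial.aeval (fun _ => (0 : ℚ)) D ≠ 0 ∧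
      ∀ (K : Type u) [Field K] [CharZero K] (κ : Ix d → K),
        Exceptional d κ → MvPolynomial.aeval κ D = 0 := by
  intro d hd
  obtain ⟨D, hD, h⟩ := t_GEN2 hSPEC hCHI hIT d hd
  refine ⟨D, hD, fun K _ _ κ hκ => ?_⟩
  obtain ⟨Ω, _, _, _, κ', hr, hco, hs⟩ := hκ
  refine hs D ?_
  by_contra h0
  exact hr (h Ω κ' hco h0)

end Pool.Agent.X328.AL
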